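import Pool.Agent.Helper33.PT.Defs

/-!
# Plan T, module T-REL
-/

set_option autoImplicit false

open Finset Polynomial

namespace Pool.Agent.Helper33.PT

/-- T-REL: no relation implies that some minor is nonzero -/
theorem exists_minor {E : Type} [Field E] (m : ℕ) (s : Finset ℕ) (x y : ℕ → E)
    (h : ∀ p : Polynomial (Polynomial E), p ≠ 0 → p.natDegree < m →
      (∀ i, (p.coeff i).natDegree < m) →
      ∃ j ∈ s, (p.eval (C (y j))).eval (x j) ≠ 0) :
    ∃ i : Fin m × Fin m → ℕ, (∀ a, i a ∈ s) ∧ (PM m (x ∘ i) (y ∘ i)).det ≠ 0 := by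
  classical
  rcases Nat.eq_zero_or_pos m with rfl | hm
  · refine ⟨fun a => a.1.elim0, fun a => a.1.elim0, ?_⟩
    rw [Matrix.det_isEmpty]
    exact one_ne_zero
  -- the rows
  set v : s → (Fin m × Fin m → E) := fun j ab => x j ^ (ab.1 : ℕ) * y j ^ (ab.2 : ℕ) with hv
  have hspan : Submodule.span E (Set.range v) = ⊤ := by
    by_contra hne
    obtain ⟨f, hf0, hf⟩ := Submodule.exists_le_ker_of_lt_top _ (lt_top_iff_ne_top.2 hne)
    set c : Fin m × Fin m → E := fun ab => f (Pi.single ab 1) with hc
    have hfc : ∀ w : Fin m × Fin m → E, f w = ∑ ab, w ab * c ab := by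
      intro w
      conv_lhs => rw [← Finset.univ_sum_single w]
      rw [map_sum]
      refine Finset.sum_congr rfl fun ab _ => ?_
      have : Pi.single ab (w ab) = w ab • (Pi.single ab (1 : E) : Fin m × Fin m → E) := by
        rw [← Pi.single_smul]; simp
      rw [this, map_smul, smul_eq_mul]
    obtain ⟨ab₀, hab₀⟩ : ∃ ab, c ab ≠ 0 := by
      by_contra hcon
      push Not at hcon
      apply hf0
      ext w
      simp [hcon] at hfc
      simp [hfc]
    set p : Polynomial (Polynomial E) :=
      ∑ b : Fin m, C (∑ a : Fin m, C (c (a, b)) * X ^ (a : ℕ)) * X ^ (b : ℕ) with hp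
    have hcoef : ∀ n, p.coeff n = if hn : n < m then
        ∑ a : Fin m, C (c (a, ⟨n, hn⟩)) * X ^ (a : ℕ) else 0 := by
      intro n
      rw [hp, finset_sum_coeff]
      simp_rw [coeff_C_mul_X_pow]
      split_ifs with hn
      · rw [Finset.sum_eq_single (⟨n, hn⟩ : Fin m)]
        · simp
        · intro b _ hb
          rw [if_neg]
          intro h
          exact hb (Fin.ext h.symm)
        · simp
      · apply Finset.sum_eq_zero
        intro b _
        rw [if_neg]
        intro h
        exact hn (h ▸ b.2)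
    have hcoef2 : ∀ n (hn : n < m) k (hk : k < m), (p.coeff n).coeff k = c (⟨k, hk⟩, ⟨n, hn⟩) := by
      intro n hn k hk
      rw [hcoef, dif_pos hn, finset_sum_coeff]
      simp_rw [coeff_C_mul_X_pow]
      rw [Finset.sum_eq_single (⟨k, hk⟩ : Fin m)]
      · simp
      · intro b _ hb
        rw [if_neg]
        intro h
        exact hb (Fin.ext h.symm)
      · simp
    have hp0 : p ≠ 0 := by
      intro h0
      apply hab₀
      have := hcoef2 ab₀.2 ab₀.2.2 ab₀.1 ab₀.1.2
      rw [h0] at this
      simpa using this.symm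
    have hpd : p.natDegree < m := by
      have h1 : p.degree < m := by
        rw [Polynomial.degree_lt_iff_coeff_zero]
        intro n hn
        rw [hcoef, dif_neg (by omega)]
      exact (Polynomial.natDegree_lt_iff_degree_lt hp0).2 h1
    have hpd2 : ∀ i, (p.coeff i).natDegree < m := by
      intro i
      by_cases h0 : p.coeff i = 0
      · rw [h0]; simpa using hm
      · refine (Polynomial.natDegree_lt_iff_degree_lt h0).2 ?_
        rw [Polynomial.degree_lt_iff_coeff_zero]
        intro n hn
        rw [hcoef]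
        split_ifs with hi
        · rw [finset_sum_coeff]
          apply Finset.sum_eq_zero
          intro b _
          rw [coeff_C_mul_X_pow, if_neg]
          intro h
          have := b.2
          omega
        · simp
    obtain ⟨j, hj, hne⟩ := h p hp0 hpd hpd2
    apply hne
    have h1 : v ⟨j, hj⟩ ∈ LinearMap.ker f := hf (Submodule.subset_span ⟨_, rfl⟩)
    rw [LinearMap.mem_ker, hfc] at h1
    rw [← h1, hp, Polynomial.eval_finset_sum, Polynomial.eval_finset_sum, Fintype.sum_prod_type,
      Finset.sum_comm]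
    refine Finset.sum_congr rfl fun b _ => ?_
    rw [Polynomial.eval_mul, Polynomial.eval_C, Polynomial.eval_mul, Polynomial.eval_finset_sum,
      Finset.sum_mul]
    refine Finset.sum_congr rfl fun a _ => ?_
    simp [hv]
    ring
  obtain ⟨κ, a, ha, hsp, hli⟩ := exists_linearIndependent' E v
  rw [hspan] at hsp
  let B : Module.Basis κ E (Fin m × Fin m → E) := Module.Basis.mk hli hsp.ge
  haveI : Fintype κ := FiniteDimensional.fintypeBasisIndex B
  have hcard : Fintype.card (Fin m × Fin m) = Fintype.card κ := by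
    have h1 := Module.finrank_eq_card_basis B
    rw [Module.finrank_fintype_fun_eq_card] at h1
    exact h1
  let e : Fin m × Fin m ≃ κ := Fintype.equivOfCardEq hcard
  refine ⟨fun ab => a (e ab), fun ab => (a (e ab)).2, ?_⟩
  have hli2 : LinearIndependent E ((v ∘ a) ∘ e) := hli.comp _ e.injective
  have hM : PM m (x ∘ fun ab => ((a (e ab) : s) : ℕ)) (y ∘ fun ab => ((a (e ab) : s) : ℕ)) =
      Matrix.of ((v ∘ a) ∘ e) := by
    ext ab cd
    rfl
  rw [hM]
  have h2 : IsUnit (Matrix.of ((v ∘ a) ∘ e)) :=
    Matrix.linearIndependent_rows_iff_isUnit.1 hli2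
  exact ((Matrix.isUnit_iff_isUnit_det _).1 h2).ne_zero

end Pool.Agent.Helper33.PT
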