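import Pool.Agent.Helper33.PT.Defs
import Pool.Agent.Helper53.PT.Minor
import Pool.Agent.Helper11.PT.DetBase
import Pool.Agent.Helper55.LW.Spec
import Pool.Agent.Helper43.PT.LE

/-!
# Plan T, module T-PAIR
-/

set_option autoImplicit false

open Finset Polynomial

namespace Pool.Agent.Helper33.PT

open Pool.Agent.Helper45.FR Pool.Agent.Helper33.UB Pool.Agent.Helper51.RatTree
  Pool.Agent.Helper93.RatODE Pool.Agent.Helper33.PS Pool.Agent.Helper55.RD

section maps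

variable {K E : Type} [Field K] [Field E] (θ : K →+* E) {F G : K[X]} {d : ℕ} {x : ℕ → K} {N : ℕ}

theorem ratOrbit_map (h : RatOrbit F G x N) :
    RatOrbit (F.map θ) (G.map θ) (fun j => θ (x j)) N where
  ne i := by rw [eval_map, eval₂_at_apply, Ne, map_eq_zero]; exact h.ne i
  step i := by
    rw [eval_map, eval₂_at_apply, eval_map, eval₂_at_apply, ← map_div₀, ← h.step i]
  inj i j hi hj hij := h.inj i j hi hj (θ.injective hij)
  fin := by
    have : Set.range (fun j => θ (x j)) = θ '' Set.range x := by rw [← Set.range_comp]; rfl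
    rw [this]; exact h.fin.image θ

theorem rmap_map (y : K) : rmap (F.map θ) (G.map θ) (θ y) = θ (rmap F G y) := by
  unfold rmap
  rw [eval_map, eval₂_at_apply, eval_map, eval₂_at_apply, ← map_div₀]

theorem iterate_rmap_map (n : ℕ) (y : K) :
    (rmap (F.map θ) (G.map θ))^[n] (θ y) = θ ((rmap F G)^[n] y) := by
  induction n generalizing y with
  | zero => rfl
  | succ n ih => rw [Function.iterate_succ_apply, rmap_map, ih, Function.iterate_succ_apply]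

variable {v : DV K} {w : DV E} {r : ℕ}

theorem ratH_map (hr : ∀ y, y ≠ 0 → w.o (θ y) = r * v.o y) (h : RatOrbit F G x N) {y : K}
    (hy : y ∈ rX h) : ratH w d (F.map θ) (G.map θ) (θ y) = r * ratH v d F G y := by
  unfold ratH
  rw [← tsum_mul_left]
  apply tsum_congr
  intro n
  have h1 : G.eval ((rmap F G)^[n] y) ≠ 0 :=
    (rX_spec h _ (iterate_mem (fun z hz => (rX_spec h z hz).2) hy n)).1
  rw [iterate_rmap_map, eval_map, eval₂_at_apply, hr _ h1]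
  push_cast
  ring

theorem gg_map (hr : ∀ y, y ≠ 0 → w.o (θ y) = r * v.o y) (hres : resultant F G d d ≠ 0)
    (h : RatOrbit F G x N) {y z : K} (hy : y ∈ rX h) (hz : z ∈ rX h) (hyz : y ≠ z) :
    gg w d (F.map θ) (G.map θ) (ratH w d (F.map θ) (G.map θ)) (θ y) (θ z) =
      r * gg v d F G (ratH v d F G) y z := by
  unfold gg
  rw [← map_sub, hr _ (sub_ne_zero.2 hyz), ratH_map θ hr h hy, ratH_map θ hr h hz,
    resultant_map_map, hr _ hres]
  push_cast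
  ring

end maps

section energy

variable {E : Type} [Field E]

theorem En_image [DecidableEq E] (v : DV E) (d : ℕ) (A B : E[X]) (H : E → ℝ) (x : ℕ → E)
    (S : Finset ℕ) (hinj : Set.InjOn x (S : Set ℕ)) :
    En v x (fun j => H (x j)) ((v.o (resultant A B d d) : ℝ) / (d * (d - 1))) S =
      ∑ y ∈ S.image x, ∑ z ∈ S.image x with z ≠ y, gg v d A B H y z := by
  unfold En
  rw [Finset.sum_image hinj]
  apply Finset.sum_congr rfl
  intro i hi
  have e : (S.image x).filter (fun z => z ≠ x i) = (S.filter (fun j => j ≠ i)).image x := by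
    ext z
    simp only [Finset.mem_filter, Finset.mem_image]
    constructor
    · rintro ⟨⟨j, hj, rfl⟩, hne⟩
      exact ⟨j, ⟨hj, fun h => hne (by rw [h])⟩, rfl⟩
    · rintro ⟨j, ⟨hj, hne⟩, rfl⟩
      exact ⟨⟨j, hj, rfl⟩, fun h => hne (hinj hj hi h)⟩
  rw [e, Finset.sum_image (hinj.mono (by
    intro j hj
    exact (Finset.mem_filter.1 hj).1))]
  rfl

theorem energy_ge (d : ℕ) (hd : 2 ≤ d) (v : DV E) {A B : E[X]} (hAB : IsRat A B d) {x : ℕ → E}
    {N : ℕ} (h : RatOrbit A B x N) (hN : 2 ≤ N) (R : RLoc v A B d (rX h) (ratH v d A B)) (κ : ℕ)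
    (hκ : 1 ≤ κ) (S : Finset ℕ) (hS : S ⊆ range (N + 1)) (hc : S.card = 2 * d ^ κ) :
    2 * (-(18 * (d - 1) * κ * d ^ κ * R.ε : ℝ)) ≤
      En v x (fun j => ratH v d A B (x j)) ((v.o (resultant A B d d) : ℝ) / (d * (d - 1))) S := by
  classical
  have hinj : Set.InjOn x (S : Set ℕ) := fun i hi j hj hij =>
    h.inj i j (by have := mem_range.1 (hS hi); omega) (by have := mem_range.1 (hS hj); omega) hij
  rw [En_image v d A B _ x S hinj]
  have h1 := Pool.Agent.Helper43.PT.energy_lower2 d hd v hAB h hN R κ hκ (S.image x) (by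
    intro y hy
    obtain ⟨i, _, rfl⟩ := mem_image.mp hy
    exact mem_rX h i) (by rw [card_image_of_injOn hinj, hc])
  refine le_trans (le_of_eq ?_) h1
  ring

end energy

section heights

variable {k K V : Type} [Field k] [Field K] [Algebra k K] {P : PSys k K V} {F G : K[X]} {d : ℕ}
  {x : ℕ → K} {N : ℕ}

theorem gg_zero_of_notMem (h : RatOrbit F G x N) {T : Finset V} (hT : RAdm P F G d (rX h) T)
    {v : V} (hv : v ∉ T) {y z : K} (hy : y ∈ rX h) (hz : z ∈ rX h) (hyz : y ≠ z) :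
    gg (P.pl v) d F G (ratH (P.pl v) d F G) y z = 0 := by
  have hH : ∀ y ∈ rX h, ratH (P.pl v) d F G y = 0 := by
    intro y hy
    unfold ratH
    rw [← tsum_zero (α := ℝ) (β := ℕ)]
    apply tsum_congr
    intro n
    rw [hT.G0 v hv _ (iterate_mem (fun z hz => (rX_spec h z hz).2) hy n)]
    simp
  unfold gg
  rw [hT.diff v hv y hy z hz hyz, hH y hy, hH z hz, hT.res v hv]
  simp

theorem sum_gg (hd : 2 ≤ d) (hres : resultant F G d d ≠ 0) (h : RatOrbit F G x N) {T : Finset V}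
    (hT : RAdm P F G d (rX h) T) {y z : K} (hy : y ∈ rX h) (hz : z ∈ rX h) (hyz : y ≠ z) :
    ∑ v ∈ T, gg (P.pl v) d F G (ratH (P.pl v) d F G) y z = 0 := by
  unfold gg
  have hX := fun z hz => (rX_spec h z hz).2
  have hG := fun z hz => (rX_spec h z hz).1
  have h1 := P.sum_eq_zero T _ hres hT.res
  have h2 : ∑ v ∈ T, ((P.pl v).o (resultant F G d d) : ℝ) = 0 := by exact_mod_cast h1
  have h3 := P.sum_eq_zero T _ (sub_ne_zero.2 hyz) (fun v hv => hT.diff v hv y hy z hz hyz)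
  have h4 : ∑ v ∈ T, ((P.pl v).o (y - z) : ℝ) = 0 := by exact_mod_cast h3
  rw [sum_add_distrib, sum_sub_distrib, sum_sub_distrib,
    sum_ratH P hd hX hG T (fun v hv y hy => hT.G0 v hv y hy) hy,
    sum_ratH P hd hX hG T (fun v hv y hy => hT.G0 v hv y hy) hz, ← sum_div, h2, h4]
  simp

theorem gg_ge {v : DV K} {X : Finset K} {H : K → ℝ} (R : RLoc v F G d X H) {y z : K}
    (hy : y ∈ X) (hz : z ∈ X) (hyz : y ≠ z) : -(2 * (R.ε : ℝ)) ≤ gg v d F G H y z := by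
  have h1 := (abs_le.mp (R.close y hy z hz hyz)).1
  have h2 : (0 : ℝ) ≤ gp v R.a R.r y z := by exact_mod_cast gp_nonneg' hyz
  linarith

theorem sum_gg_pos (hd : 2 ≤ d) (hres : resultant F G d d ≠ 0) (h : RatOrbit F G x N)
    {T : Finset V} (hT : RAdm P F G d (rX h) T)
    (rl : ∀ v, RLoc (P.pl v) F G d (rX h) (ratH (P.pl v) d F G)) {y z : K} (hy : y ∈ rX h)
    (hz : z ∈ rX h) (hyz : y ≠ z) :
    ∑ v ∈ T, max 0 (gg (P.pl v) d F G (ratH (P.pl v) d F G) y z) ≤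
      2 * ∑ v ∈ T, ((rl v).ε : ℝ) := by
  have h1 : ∀ v ∈ T, max 0 (gg (P.pl v) d F G (ratH (P.pl v) d F G) y z) ≤
      gg (P.pl v) d F G (ratH (P.pl v) d F G) y z + 2 * ((rl v).ε : ℝ) := by
    intro v _
    have h2 := gg_ge (rl v) hy hz hyz
    have h3 : (0 : ℝ) ≤ (rl v).ε := Nat.cast_nonneg _
    apply max_le <;> linarith
  have h2 := sum_le_sum h1
  rw [sum_add_distrib, sum_gg hd hres h hT hy hz hyz, zero_add, ← mul_sum] at h2
  exact h2

end heights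

section total

variable {k K E V W : Type} [Field k] [Field K] [Field E] [Algebra k K] [Algebra k E]
  [Algebra K E] [IsScalarTower k K E] {P : PSys k K V} {Q : PSys k E W} {n d : ℕ}
  (gs : GalW P Q n) {F G : K[X]} {x : ℕ → K} {N : ℕ}

theorem sum_ram_le [DecidableEq V] [DecidableEq W] (f : V → ℝ) (hf : ∀ v, 0 ≤ f v) (T : Finset V)
    (hT : ∀ v, v ∉ T → f v = 0) (U : Finset W) :
    ∑ u ∈ U, (gs.ram u : ℝ) * f (gs.res u) ≤ n * ∑ v ∈ T, f v := by
  have h1 : ∑ u ∈ U, (gs.ram u : ℝ) * f (gs.res u) =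
      ∑ v ∈ U.image gs.res, ∑ u ∈ U with gs.res u = v, (gs.ram u : ℝ) * f (gs.res u) :=
    (sum_fiberwise_of_maps_to (fun u hu => mem_image_of_mem _ hu) _).symm
  rw [h1]
  have h2 : ∀ v ∈ U.image gs.res, ∑ u ∈ U with gs.res u = v, (gs.ram u : ℝ) * f (gs.res u) ≤
      n * f v := by
    intro v _
    have h3 : ∑ u ∈ U with gs.res u = v, (gs.ram u : ℝ) * f (gs.res u) =
        (∑ u ∈ U with gs.res u = v, gs.ram u : ℕ) * f v := by
      push_cast
      rw [sum_mul]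
      apply sum_congr rfl
      intro u hu
      rw [(mem_filter.1 hu).2]
    rw [h3]
    apply mul_le_mul_of_nonneg_right _ (hf v)
    exact_mod_cast gs.fib v _ (fun u hu => (mem_filter.1 hu).2)
  refine (sum_le_sum h2).trans ?_
  rw [← mul_sum]
  apply mul_le_mul_of_nonneg_left _ (Nat.cast_nonneg _)
  have h4 : ∑ v ∈ U.image gs.res, f v ≤ ∑ v ∈ U.image gs.res ∪ T, f v :=
    sum_le_sum_of_subset_of_nonneg subset_union_left fun v _ _ => hf v
  refine h4.trans (le_of_eq ?_)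
  symm
  apply sum_subset subset_union_right
  intro v _ hv
  exact hT v hv

theorem sum_eps_le (hd : 2 ≤ d) (hres : resultant F G d d ≠ 0) (h : RatOrbit F G x N)
    (hN : N₀ d ≤ N) {T : Finset V} (hT : RAdm P F G d (rX h) T)
    (rl : ∀ v, RLoc (P.pl v) F G d (rX h) (ratH (P.pl v) d F G)) (θ : K →+* E) (τ : W → W)
    (hτ : Function.Injective τ)
    (hθ : ∀ w y, y ≠ 0 → (Q.pl w).o (θ y) = gs.ram (τ w) * (P.pl (gs.res (τ w))).o y)
    (h' : RatOrbit (F.map θ) (G.map θ) (fun j => θ (x j)) N)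
    (rl' : ∀ w, RLoc (Q.pl w) (F.map θ) (G.map θ) d (rX h')
      (ratH (Q.pl w) d (F.map θ) (G.map θ))) (U : Finset W) :
    ∑ w ∈ U, ((rl' w).ε : ℝ) ≤
      (2 * n * (N₀ d : ℝ) ^ 2 / c₀ d) * ∑ v ∈ T, ((rl v).ε : ℝ) := by
  classical
  have hc := c₀_pos hd
  set Pr := (range (N₀ d)).offDiag with hPr
  set f : ℕ × ℕ → V → ℝ := fun p v =>
    max 0 (gg (P.pl v) d F G (ratH (P.pl v) d F G) (x p.1) (x p.2)) with hf
  have hf0 : ∀ p v, 0 ≤ f p v := fun p v => le_max_left _ _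
  have hinj : ∀ i ∈ range (N₀ d), ∀ j ∈ range (N₀ d), x i = x j → i = j := by
    intro i hi j hj hij
    rw [mem_range] at hi hj
    exact h.inj i j (by omega) (by omega) hij
  -- the local estimate
  have hloc : ∀ w, c₀ d * ((rl' w).ε : ℝ) ≤
      ∑ p ∈ Pr, (gs.ram (τ w) : ℝ) * f p (gs.res (τ w)) := by
    intro w
    have hinj' : Set.InjOn (fun j => θ (x j)) ((range (N₀ d) : Finset ℕ) : Set ℕ) :=
      fun i hi j hj hij => hinj i hi j hj (θ.injective hij)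
    obtain ⟨y, hy, z, hz, hyz, hw⟩ := (rl' w).lb ((range (N₀ d)).image fun j => θ (x j)) (by
      intro y hy
      obtain ⟨i, _, rfl⟩ := mem_image.mp hy
      exact mem_rX h' i) (by rw [card_image_of_injOn hinj', card_range])
    obtain ⟨i, hi, rfl⟩ := mem_image.mp hy
    obtain ⟨j, hj, rfl⟩ := mem_image.mp hz
    have hxij : x i ≠ x j := fun e => hyz (by simp only [e])
    rw [gg_map θ (hθ w) hres h (mem_rX h i) (mem_rX h j) hxij] at hw
    refine hw.trans ?_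
    have hp : (i, j) ∈ Pr := mem_offDiag.2 ⟨hi, hj, fun e => hxij (congrArg x e)⟩
    refine le_trans ?_ (single_le_sum
      (f := fun p => (gs.ram (τ w) : ℝ) * f p (gs.res (τ w)))
      (fun p _ => mul_nonneg (Nat.cast_nonneg _) (hf0 p _)) hp)
    apply mul_le_mul_of_nonneg_left _ (Nat.cast_nonneg _)
    exact le_max_right _ _
  have h1 : c₀ d * ∑ w ∈ U, ((rl' w).ε : ℝ) ≤
      ∑ p ∈ Pr, ∑ w ∈ U, (gs.ram (τ w) : ℝ) * f p (gs.res (τ w)) := by
    rw [mul_sum, sum_comm]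
    exact sum_le_sum fun w _ => hloc w
  have h2 : ∀ p ∈ Pr, ∑ w ∈ U, (gs.ram (τ w) : ℝ) * f p (gs.res (τ w)) ≤
      n * (2 * ∑ v ∈ T, ((rl v).ε : ℝ)) := by
    intro p hp
    rw [hPr, mem_offDiag] at hp
    have hne : x p.1 ≠ x p.2 := fun e => hp.2.2 (hinj _ hp.1 _ hp.2.1 e)
    have h3 : ∑ w ∈ U, (gs.ram (τ w) : ℝ) * f p (gs.res (τ w)) =
        ∑ u ∈ U.image τ, (gs.ram u : ℝ) * f p (gs.res u) :=
      (sum_image (f := fun u => (gs.ram u : ℝ) * f p (gs.res u)) (hτ.injOn)).symm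
    rw [h3]
    refine (sum_ram_le gs (f p) (hf0 p) T (fun v hv => ?_) _).trans ?_
    · simp only [hf]
      rw [gg_zero_of_notMem h hT hv (mem_rX h _) (mem_rX h _) hne, max_self]
    · apply mul_le_mul_of_nonneg_left _ (Nat.cast_nonneg _)
      exact sum_gg_pos hd hres h hT rl (mem_rX h _) (mem_rX h _) hne
  have h3 := h1.trans (sum_le_sum h2)
  rw [sum_const, nsmul_eq_mul] at h3
  have h4 : (Pr.card : ℝ) ≤ (N₀ d : ℝ) ^ 2 := by
    have : Pr.card ≤ (N₀ d) ^ 2 := by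
      rw [hPr, offDiag_card, card_range, sq]
      omega
    exact_mod_cast this
  have h5 : 0 ≤ (n : ℝ) * (2 * ∑ v ∈ T, ((rl v).ε : ℝ)) := by positivity
  have h6 := h3.trans (mul_le_mul_of_nonneg_right h4 h5)
  have h7 : (2 * n * (N₀ d : ℝ) ^ 2 / c₀ d) * ∑ v ∈ T, ((rl v).ε : ℝ) =
      ((N₀ d : ℝ) ^ 2 * (n * (2 * ∑ v ∈ T, ((rl v).ε : ℝ)))) / c₀ d := by ring
  rw [h7, le_div_iff₀ hc]
  linarith

end total

/-- choice of the exponent -/
theorem exists_kp (d : ℕ) (hd : 2 ≤ d) (C κ : ℝ) (hκ : 0 < κ) :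
    ∃ kp : ℕ, 1 ≤ kp ∧ C * (kp / (d : ℝ) ^ kp) ≤ κ := by
  have hd1 : (1 : ℝ) < d := by exact_mod_cast (by omega : 1 < d)
  have h1 := tendsto_pow_const_div_const_pow_of_one_lt 1 hd1
  have h2 : Filter.Tendsto (fun n : ℕ => C * ((n : ℝ) ^ 1 / (d : ℝ) ^ n)) Filter.atTop
      (nhds (C * 0)) := h1.const_mul C
  rw [mul_zero] at h2
  obtain ⟨kp, h3, h4⟩ := ((h2.eventually (gt_mem_nhds hκ)).and
    (Filter.eventually_ge_atTop 1)).exists
  refine ⟨kp, h4, ?_⟩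
  rw [pow_one] at h3
  exact h3.le

/-- T-PAIR: the wild ramification is small compared with the total badness -/
theorem pair_bound (d n : ℕ) (hd : 2 ≤ d) (κ : ℝ) (hκ : 0 < κ) : ∃ m N₀ : ℕ,
    ∀ {k K E V W : Type} [Field k] [Field K] [Field E] [Algebra k K] [Algebra k E] [Algebra K E]
    [IsScalarTower k K E] (P : PSys k K V) (Q : PSys k E W)
    (_ : ∀ v, ∀ c : k, c ≠ 0 → (P.pl v).o (algebraMap k K c) = 0)
    (gs : GalW P Q n) (F G : K[X]) (_ : IsRat F G d)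
    (x : ℕ → K) (N : ℕ) (_ : N₀ ≤ N) (h : RatOrbit F G x N) (T : Finset V) (_ : RAdm P F G d (rX h) T)
    (rl : ∀ v, RLoc (P.pl v) F G d (rX h) (ratH (P.pl v) d F G))
    (σ : E ≃ₐ[k] E) (_ : σ ∈ gs.G) (a w : ℕ) (_ : a + w ≤ N)
    (_ : ∀ p : Polynomial (Polynomial E), p ≠ 0 → p.natDegree < m → (∀ i, (p.coeff i).natDegree < m) →
      ∃ j, a ≤ j ∧ j ≤ a + w ∧
        (p.eval (C (σ (algebraMap K E (x j))))).eval (algebraMap K E (x j)) ≠ 0)
    (S : Finset W) (_ : ∀ w ∈ S, gs.act σ w = w),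
    (∑ w ∈ S, gs.wild σ w : ℝ) ≤ κ * ∑ v ∈ T, ((rl v).ε : ℝ) := by
  classical
  have hc := c₀_pos hd
  set Cst : ℝ := 2 * n * (Pool.Agent.Helper55.RD.N₀ d : ℝ) ^ 2 / c₀ d with hCst
  obtain ⟨kp, hkp1, hkp⟩ := exists_kp d hd (144 * (d - 1) * Cst) κ hκ
  set R : ℕ := d ^ kp with hR
  have hR1 : 1 ≤ R := Nat.one_le_pow _ _ (by omega)
  refine ⟨2 * R, max (3 * R) (max (Pool.Agent.Helper55.RD.N₀ d) 2), ?_⟩
  intro k K E V W _ _ _ _ _ _ _ P Q hconst gs F G hFG x N hN h T hT rl σ hσ a len haN hrel S hS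
  have hN1 : 3 * R ≤ N := (le_max_left _ _).trans hN
  have hN2 : Pool.Agent.Helper55.RD.N₀ d ≤ N :=
    (le_max_left _ _).trans ((le_max_right _ _).trans hN)
  have hN3 : 2 ≤ N := (le_max_right _ _).trans ((le_max_right _ _).trans hN)
  have hres : resultant F G d d ≠ 0 := resultant_ne_zero_of_isRat (by omega) hFG
  -- the two embeddings
  set θ₁ : K →+* E := algebraMap K E with hθ₁
  set θ₂ : K →+* E := (σ : E →+* E).comp (algebraMap K E) with hθ₂
  set x₁ : ℕ → E := fun j => θ₁ (x j) with hx₁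
  set x₂ : ℕ → E := fun j => θ₂ (x j) with hx₂
  have h₁ : RatOrbit (F.map θ₁) (G.map θ₁) x₁ N := ratOrbit_map θ₁ h
  have h₂ : RatOrbit (F.map θ₂) (G.map θ₂) x₂ N := ratOrbit_map θ₂ h
  have hF₁ : IsRat (F.map θ₁) (G.map θ₁) d := hFG.map θ₁
  have hF₂ : IsRat (F.map θ₂) (G.map θ₂) d := hFG.map θ₂
  have hres₁ : resultant (F.map θ₁) (G.map θ₁) d d ≠ 0 :=
    resultant_ne_zero_of_isRat (by omega) hF₁
  have hres₂ : resultant (F.map θ₂) (G.map θ₂) d d ≠ 0 :=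
    resultant_ne_zero_of_isRat (by omega) hF₂
  have o₁ : ∀ w y, y ≠ 0 → (Q.pl w).o (θ₁ y) = gs.ram (id w) * (P.pl (gs.res (id w))).o y :=
    fun w y hy => gs.ram_spec w y hy
  have o₂ : ∀ w y, y ≠ 0 → (Q.pl w).o (θ₂ y) =
      gs.ram ((gs.act σ).symm w) * (P.pl (gs.res ((gs.act σ).symm w))).o y := by
    intro w y hy
    have e1 := gs.act_spec σ hσ ((gs.act σ).symm w) (algebraMap K E y)
    rw [Equiv.apply_symm_apply] at e1
    rw [← gs.ram_spec _ y hy, ← e1]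
    rfl
  set rl₁ : ∀ w, RLoc (Q.pl w) (F.map θ₁) (G.map θ₁) d (rX h₁)
    (ratH (Q.pl w) d (F.map θ₁) (G.map θ₁)) := fun w => rloc hd (Q.pl w) hF₁.dA hF₁.dB hres₁ h₁
  set rl₂ : ∀ w, RLoc (Q.pl w) (F.map θ₂) (G.map θ₂) d (rX h₂)
    (ratH (Q.pl w) d (F.map θ₂) (G.map θ₂)) := fun w => rloc hd (Q.pl w) hF₂.dA hF₂.dB hres₂ h₂
  have hE₁ := fun U : Finset W => sum_eps_le gs hd hres h hN2 hT rl θ₁ id Function.injective_id o₁
    h₁ rl₁ U
  have hE₂ := fun U : Finset W => sum_eps_le gs hd hres h hN2 hT rl θ₂ (gs.act σ).symm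
    (gs.act σ).symm.injective o₂ h₂ rl₂ U
  -- the minor
  obtain ⟨i, hi, hdet⟩ := exists_minor (2 * R) (Icc a (a + len)) x₁ x₂ (by
    intro p hp h1 h2
    obtain ⟨j, hj1, hj2, hj3⟩ := hrel p hp h1 h2
    exact ⟨j, mem_Icc.2 ⟨hj1, hj2⟩, hj3⟩)
  set D := (PM (2 * R) (x₁ ∘ i) (x₂ ∘ i)).det with hD
  set X := range (N + 1) with hX
  have hiX : ∀ b, i b ∈ X := by
    intro b
    have := mem_Icc.1 (hi b)
    rw [hX, mem_range]; omega
  have hX1 : Set.InjOn x₁ (X : Set ℕ) := fun i hi j hj hij =>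
    h₁.inj i j (by have := mem_range.1 hi; omega) (by have := mem_range.1 hj; omega) hij
  have hX2 : Set.InjOn x₂ (X : Set ℕ) := fun i hi j hj hij =>
    h₂.inj i j (by have := mem_range.1 hi; omega) (by have := mem_range.1 hj; omega) hij
  -- finite sets of places
  obtain ⟨T₁, hT₁⟩ := exists_radm Q hres₁ (rX h₁) fun y hy => (rX_spec h₁ y hy).1
  obtain ⟨T₂, hT₂⟩ := exists_radm Q hres₂ (rX h₂) fun y hy => (rX_spec h₂ y hy).1
  set T₃ := (Q.ord_finite D hdet).toFinset with hT₃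
  set U := T₁ ∪ T₂ ∪ T₃ ∪ S with hU
  have hSU : S ⊆ U := subset_union_right
  have hnot : ∀ w, w ∉ U → w ∉ T₁ ∧ w ∉ T₂ ∧ w ∉ T₃ := by
    intro w hw
    rw [hU] at hw
    simp only [mem_union, not_or] at hw
    exact ⟨hw.1.1.1, hw.1.1.2, hw.1.2⟩
  set H₁ : W → ℕ → ℝ := fun w j => ratH (Q.pl w) d (F.map θ₁) (G.map θ₁) (x₁ j) with hH₁
  set H₂ : W → ℕ → ℝ := fun w j => ratH (Q.pl w) d (F.map θ₂) (G.map θ₂) (x₂ j) with hH₂
  set q₁ : W → ℝ := fun w => ((Q.pl w).o (resultant (F.map θ₁) (G.map θ₁) d d) : ℝ) /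
    (d * (d - 1)) with hq₁
  set q₂ : W → ℝ := fun w => ((Q.pl w).o (resultant (F.map θ₂) (G.map θ₂) d d) : ℝ) /
    (d * (d - 1)) with hq₂
  set e₁ : W → ℝ := fun w => -(18 * (d - 1) * kp * (d : ℝ) ^ kp * (rl₁ w).ε) with he₁
  set e₂ : W → ℝ := fun w => -(18 * (d - 1) * kp * (d : ℝ) ^ kp * (rl₂ w).ε) with he₂
  have hd1 : (0 : ℝ) ≤ d - 1 := by
    have : (2 : ℝ) ≤ d := by exact_mod_cast hd
    linarith
  have he₁0 : ∀ w, e₁ w ≤ 0 := by
    intro w
    simp only [he₁]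
    rw [neg_nonpos]
    positivity
  have he₂0 : ∀ w, e₂ w ≤ 0 := by
    intro w
    simp only [he₂]
    rw [neg_nonpos]
    positivity
  have hE1 : ∀ w, ∀ B ⊆ X, B.card = 2 * R → 2 * e₁ w ≤ En (Q.pl w) x₁ (H₁ w) (q₁ w) B :=
    fun w B hB hc => energy_ge d hd (Q.pl w) hF₁ h₁ hN3 (rl₁ w) kp hkp1 B hB hc
  have hE2 : ∀ w, ∀ B ⊆ X, B.card = 2 * R → 2 * e₂ w ≤ En (Q.pl w) x₂ (H₂ w) (q₂ w) B :=
    fun w B hB hc => energy_ge d hd (Q.pl w) hF₂ h₂ hN3 (rl₂ w) kp hkp1 B hB hc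
  have hXc : 3 * R ≤ X.card := by rw [hX, card_range]; omega
  -- the local quantity
  set Φ : W → ℝ := fun w => ((Q.pl w).o D : ℝ) -
    ((2 * R : ℕ) - 1) * ∑ b, (H₁ w (i b) + H₂ w (i b)) +
      (q₁ w + q₂ w) * ((2 * R : ℕ) - 1) * ((2 * R : ℕ) : ℝ) ^ 2 / 2 with hΦ
  have hloc1 : ∀ w, ((2 * R : ℕ) : ℝ) * (e₁ w + e₂ w) ≤ Φ w := by
    intro w
    exact Pool.Agent.Helper11.PT.det_base (Q.pl w) (2 * R) (by omega) X (by omega) x₁ x₂ hX1 hX2 (H₁ w) (H₂ w) (q₁ w)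
      (q₂ w) (e₁ w) (e₂ w) (hE1 w) (hE2 w) i hiX hdet
  have hloc2 : ∀ w ∈ S, 2 * (2 * R) * e₁ w + (R : ℝ) ^ 3 * gs.wild σ w ≤ Φ w := by
    intro w hw
    have hfix := hS w hw
    have hsymm : (gs.act σ).symm w = w := by
      rw [Equiv.symm_apply_eq]; exact hfix.symm
    have o₂' : ∀ y, y ≠ 0 → (Q.pl w).o (θ₂ y) = gs.ram w * (P.pl (gs.res w)).o y := by
      intro y hy
      have := o₂ w y hy
      rwa [hsymm] at this
    have o₁' : ∀ y, y ≠ 0 → (Q.pl w).o (θ₁ y) = gs.ram w * (P.pl (gs.res w)).o y := o₁ w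
    have hHH : ∀ j, H₂ w j = H₁ w j := by
      intro j
      simp only [hH₁, hH₂]
      rw [ratH_map θ₂ o₂' h (mem_rX h j), ratH_map θ₁ o₁' h (mem_rX h j)]
    have hqq : q₂ w = q₁ w := by
      simp only [hq₁, hq₂]
      rw [resultant_map_map, resultant_map_map, o₂' _ hres, o₁' _ hres]
    have hne : ∀ i ∈ X, ∀ j ∈ X, i ≠ j → x i - x j ≠ 0 := by
      intro i hi j hj hij
      exact sub_ne_zero.2 fun e => hij (h.inj i j (by have := mem_range.1 hi; omega)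
        (by have := mem_range.1 hj; omega) e)
    have hsub₁ : ∀ i j, x₁ i - x₁ j = θ₁ (x i - x j) := fun i j => (map_sub _ _ _).symm
    have hsub₂ : ∀ i j, x₂ i - x₂ j = θ₂ (x i - x j) := fun i j => (map_sub _ _ _).symm
    have hquo : ∀ i ∈ X, ∀ j ∈ X, i ≠ j →
        (Q.pl w).ge (gs.wild σ w : ℕ) ((x₂ i - x₂ j) / (x₁ i - x₁ j) - 1) := by
      intro i hi j hj hij
      rw [hsub₁, hsub₂]
      rcases Nat.eq_zero_or_pos (gs.wild σ w) with h0 | h0
      · rw [h0]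
        have h1 : θ₂ (x i - x j) ≠ 0 := by rw [Ne, map_eq_zero]; exact hne i hi j hj hij
        have h2 : θ₁ (x i - x j) ≠ 0 := by rw [Ne, map_eq_zero]; exact hne i hi j hj hij
        apply DV.ge_sub
        · right
          rw [DV.o_div _ _ _ h1 h2, o₂' _ (hne i hi j hj hij), o₁' _ (hne i hi j hj hij)]
          simp
        · rw [Nat.cast_zero]
          exact DV.ge_one
      · exact gs.wild_spec σ hσ w hfix h0 _ (hne i hi j hj hij)
    have h1 := Pool.Agent.Helper55.LWI.lemmaW (Q.pl w) R hR1 X hXc x₁ x₂ hX1 hX2 (H₁ w) (q₁ w) (e₁ w) (gs.wild σ w)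
      (fun i hi j hj hij => by
        rw [hsub₁, hsub₂, o₂' _ (hne i hi j hj hij), o₁' _ (hne i hi j hj hij)])
      (fun i hi j hj l hl hij hil _ => by
        have e : (x₂ i - x₂ j) / (x₁ i - x₁ j) - (x₂ i - x₂ l) / (x₁ i - x₁ l) =
            ((x₂ i - x₂ j) / (x₁ i - x₁ j) - 1) - ((x₂ i - x₂ l) / (x₁ i - x₁ l) - 1) := by ring
        rw [e]
        exact DV.ge_sub (hquo i hi j hj hij) (hquo i hi l hl hil))
      (fun B hB hc => hE1 w B hB hc) i hiX hdet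
    refine h1.trans (le_of_eq ?_)
    simp only [hΦ, hHH, hqq]
    rw [← hD]
    have e2 : ∑ b, (H₁ w (i b) + H₁ w (i b)) = 2 * ∑ b, H₁ w (i b) := by
      rw [mul_sum]
      exact sum_congr rfl fun b _ => by ring
    rw [e2]
    push_cast
    ring
  -- the sum over all places
  have hsum : ∑ w ∈ U, Φ w = 0 := by
    have hX1' := fun z hz => (rX_spec h₁ z hz).2
    have hG1' := fun z hz => (rX_spec h₁ z hz).1
    have hX2' := fun z hz => (rX_spec h₂ z hz).2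
    have hG2' := fun z hz => (rX_spec h₂ z hz).1
    have s1 : ∑ w ∈ U, ((Q.pl w).o D : ℝ) = 0 := by
      have := Q.sum_eq_zero U D hdet (by
        intro w hw
        have := (hnot w hw).2.2
        rw [hT₃, Set.Finite.mem_toFinset] at this
        by_contra h0
        exact this h0)
      exact_mod_cast this
    have s2 : ∀ j, ∑ w ∈ U, H₁ w j = 0 := fun j =>
      sum_ratH Q hd hX1' hG1' U (fun w hw y hy => hT₁.G0 w (hnot w hw).1 y hy) (mem_rX h₁ j)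
    have s3 : ∀ j, ∑ w ∈ U, H₂ w j = 0 := fun j =>
      sum_ratH Q hd hX2' hG2' U (fun w hw y hy => hT₂.G0 w (hnot w hw).2.1 y hy) (mem_rX h₂ j)
    have s4 : ∑ w ∈ U, q₁ w = 0 := by
      simp only [hq₁]
      rw [← sum_div]
      have := Q.sum_eq_zero U _ hres₁ (fun w hw => hT₁.res w (hnot w hw).1)
      have h2 : ∑ w ∈ U, ((Q.pl w).o (resultant (F.map θ₁) (G.map θ₁) d d) : ℝ) = 0 := by
        exact_mod_cast this
      rw [h2, zero_div]
    have s5 : ∑ w ∈ U, q₂ w = 0 := by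
      simp only [hq₂]
      rw [← sum_div]
      have := Q.sum_eq_zero U _ hres₂ (fun w hw => hT₂.res w (hnot w hw).2.1)
      have h2 : ∑ w ∈ U, ((Q.pl w).o (resultant (F.map θ₂) (G.map θ₂) d d) : ℝ) = 0 := by
        exact_mod_cast this
      rw [h2, zero_div]
    have s6 : ∑ w ∈ U, ∑ b, (H₁ w (i b) + H₂ w (i b)) = 0 := by
      rw [sum_comm]
      apply sum_eq_zero
      intro b _
      rw [sum_add_distrib, s2, s3, add_zero]
    simp only [hΦ]
    rw [sum_add_distrib, sum_sub_distrib, s1, ← mul_sum, s6, ← sum_div, ← sum_mul, ← sum_mul,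
      sum_add_distrib, s4, s5]
    simp
  -- conclusion
  have hall : ∀ w ∈ U, 2 * ((2 * R : ℕ) : ℝ) * (e₁ w + e₂ w) +
      (if w ∈ S then (R : ℝ) ^ 3 * gs.wild σ w else 0) ≤ Φ w := by
    intro w _
    have hRR : (0 : ℝ) ≤ ((2 * R : ℕ) : ℝ) := Nat.cast_nonneg _
    have n1 := mul_nonpos_of_nonneg_of_nonpos hRR (he₁0 w)
    have n2 := mul_nonpos_of_nonneg_of_nonpos hRR (he₂0 w)
    split_ifs with hw
    · have h1 := hloc2 w hw
      push_cast at h1 n1 n2 ⊢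
      linarith
    · have h1 := hloc1 w
      linarith
  have htot := sum_le_sum hall
  rw [hsum, sum_add_distrib, ← sum_filter, ← mul_sum] at htot
  have hfil : U.filter (fun w => w ∈ S) = S := by
    ext w
    rw [mem_filter]
    exact ⟨fun h => h.2, fun h => ⟨hSU h, h⟩⟩
  rw [hfil, ← mul_sum, sum_add_distrib] at htot
  have se₁ : ∑ w ∈ U, e₁ w = -(18 * (d - 1) * kp * (d : ℝ) ^ kp * ∑ w ∈ U, ((rl₁ w).ε : ℝ)) := by
    rw [mul_sum, ← sum_neg_distrib]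
  have se₂ : ∑ w ∈ U, e₂ w = -(18 * (d - 1) * kp * (d : ℝ) ^ kp * ∑ w ∈ U, ((rl₂ w).ε : ℝ)) := by
    rw [mul_sum, ← sum_neg_distrib]
  rw [se₁, se₂] at htot
  set hK := ∑ v ∈ T, ((rl v).ε : ℝ) with hhK
  have b1 : ∑ w ∈ U, ((rl₁ w).ε : ℝ) ≤ Cst * hK := hE₁ U
  have b2 : ∑ w ∈ U, ((rl₂ w).ε : ℝ) ≤ Cst * hK := hE₂ U
  have hRr : (R : ℝ) = (d : ℝ) ^ kp := by rw [hR]; push_cast; rfl
  have hRpos : (0 : ℝ) < R := by exact_mod_cast hR1
  have hhK0 : 0 ≤ hK := sum_nonneg fun v _ => Nat.cast_nonneg _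
  rw [← hRr] at htot hkp
  have hcoef : 0 ≤ 18 * ((d : ℝ) - 1) * kp * R := by positivity
  have c1 := mul_le_mul_of_nonneg_left b1 hcoef
  have c2 := mul_le_mul_of_nonneg_left b2 hcoef
  have c3 : (R : ℝ) ^ 3 * ∑ w ∈ S, (gs.wild σ w : ℝ) ≤
      2 * ((2 * R : ℕ) : ℝ) * (2 * (18 * ((d : ℝ) - 1) * kp * R * (Cst * hK))) := by
    have : (0 : ℝ) ≤ 2 * ((2 * R : ℕ) : ℝ) := by positivity
    nlinarith [mul_le_mul_of_nonneg_left (add_le_add c1 c2) this]
  have c4 : 2 * ((2 * R : ℕ) : ℝ) * (2 * (18 * ((d : ℝ) - 1) * kp * R * (Cst * hK))) =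
      (R : ℝ) ^ 3 * ((144 * (d - 1) * Cst * (kp / R)) * hK) := by
    push_cast
    field_simp
    ring
  rw [c4] at c3
  have c5 := le_of_mul_le_mul_left c3 (by positivity : (0 : ℝ) < (R : ℝ) ^ 3)
  exact c5.trans (mul_le_mul_of_nonneg_right hkp hhK0)

end Pool.Agent.Helper33.PT
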