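import Mathlib

/-!
# Plan T, module T-STAR (pure combinatorics)
-/

set_option autoImplicit false

open Finset

namespace Pool.Agent.Helper33.PT

theorem star_local {C₁ c₀ ε err : ℝ} (hC₁ : 0 ≤ C₁) (hc₀ : 0 < c₀) (hε : 0 ≤ ε)
    (herr : 0 ≤ err) (g : ℕ → ℕ → ℝ) (s' : Finset ℕ) (a : ℕ → ℝ)
    (h1 : ∀ i ∈ s', ∀ j ∈ s', i ≠ j → a i + a j - err ≤ g i j ∧ g i j ≤ a i + a j + err)
    (hlow : ∀ i ∈ s', ∀ j ∈ s', i ≠ j → -(C₁ * ε) ≤ g i j) (N₀ M : ℕ)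
    (hst : ∀ u ⊆ s', N₀ < u.card → ∃ i ∈ u, ∃ j ∈ u, i ≠ j ∧ c₀ * ε ≤ g i j)
    (hn : s'.card = N₀ + 1 + M) :
    ((c₀ + C₁) * ((M + 1) * M) - (N₀ + 1 + M) * (N₀ + M) * C₁) * ε -
      2 * ((N₀ + 1 + M) * (N₀ + M)) * err ≤ ∑ i ∈ s', ∑ j ∈ s'.erase i, g i j := by
  classical
  set Gd := s'.filter fun i => c₀ * ε / 2 - err / 2 ≤ a i with hGd
  set B := s'.filter fun i => ¬ (c₀ * ε / 2 - err / 2 ≤ a i) with hB
  have hBc : B.card ≤ N₀ := by
    by_contra hcon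
    obtain ⟨i, hi, j, hj, hij, hg⟩ := hst B (Finset.filter_subset _ _) (by omega)
    rw [hB, Finset.mem_filter] at hi hj
    have := (h1 i hi.1 j hj.1 hij).2
    have h2 := hi.2
    have h3 := hj.2
    push Not at h2 h3
    linarith
  have hGB : Gd.card + B.card = s'.card := Finset.card_filter_add_card_filter_not _
  have hGc : M + 1 ≤ Gd.card := by omega
  have hpt : ∀ i ∈ s', ∀ j ∈ s'.erase i,
      -(C₁ * ε) + (if i ∈ Gd then (if j ∈ Gd then (c₀ + C₁) * ε else 0) else 0) - 2 * err ≤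
        g i j := by
    intro i hi j hj
    rw [Finset.mem_erase] at hj
    have h2 := h1 i hi j hj.2 (Ne.symm hj.1)
    have h3 := hlow i hi j hj.2 (Ne.symm hj.1)
    by_cases hi' : i ∈ Gd
    · by_cases hj' : j ∈ Gd
      · rw [if_pos hi', if_pos hj']
        rw [hGd, Finset.mem_filter] at hi' hj'
        have := hi'.2
        have := hj'.2
        linarith [h2.1]
      · rw [if_pos hi', if_neg hj']
        linarith
    · rw [if_neg hi']
      linarith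
  refine le_trans ?_ (Finset.sum_le_sum fun i hi => Finset.sum_le_sum fun j hj => hpt i hi j hj)
  have hce : ∀ i ∈ s', ((s'.erase i).card : ℝ) = N₀ + M := by
    intro i hi
    rw [Finset.card_erase_of_mem hi, hn]
    have : N₀ + 1 + M - 1 = N₀ + M := by omega
    rw [this]; push_cast; ring
  have hin : ∀ i ∈ s', ∑ j ∈ s'.erase i,
      (-(C₁ * ε) + (if i ∈ Gd then (if j ∈ Gd then (c₀ + C₁) * ε else 0) else 0) - 2 * err) =
      (N₀ + M) * (-(C₁ * ε) - 2 * err) +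
        (if i ∈ Gd then (Gd.card - 1 : ℝ) * ((c₀ + C₁) * ε) else 0) := by
    intro i hi
    have e1 : ∀ j, (-(C₁ * ε) + (if i ∈ Gd then (if j ∈ Gd then (c₀ + C₁) * ε else 0) else 0) -
        2 * err) = (-(C₁ * ε) - 2 * err) +
          (if i ∈ Gd then (if j ∈ Gd then (c₀ + C₁) * ε else 0) else 0) := fun j => by ring
    simp_rw [e1]
    rw [Finset.sum_add_distrib, Finset.sum_const, nsmul_eq_mul, hce i hi]
    congr 1
    split_ifs with hi'
    · rw [← Finset.sum_filter, Finset.sum_const, nsmul_eq_mul]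
      congr 1
      have e2 : (s'.erase i).filter (fun j => j ∈ Gd) = Gd.erase i := by
        ext j
        simp only [Finset.mem_filter, Finset.mem_erase]
        constructor
        · rintro ⟨⟨h2, _⟩, h4⟩
          exact ⟨h2, h4⟩
        · rintro ⟨h2, h4⟩
          exact ⟨⟨h2, (Finset.mem_filter.1 h4).1⟩, h4⟩
      rw [e2, Finset.card_erase_of_mem hi', Nat.cast_sub (by omega)]
      simp
    · simp
  rw [Finset.sum_congr rfl hin, Finset.sum_add_distrib, Finset.sum_const, nsmul_eq_mul, hn,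
    ← Finset.sum_filter]
  have e3 : s'.filter (fun i => i ∈ Gd) = Gd := by
    ext j
    simp only [Finset.mem_filter]
    exact ⟨fun h => h.2, fun h => ⟨(Finset.mem_filter.1 h).1, h⟩⟩
  rw [e3, Finset.sum_const, nsmul_eq_mul]
  have h4 : ((M : ℝ) + 1) ≤ Gd.card := by exact_mod_cast hGc
  have h5 : ((M : ℝ) + 1) * M ≤ Gd.card * (Gd.card - 1 : ℝ) := by
    have : (0 : ℝ) ≤ M := Nat.cast_nonneg _
    nlinarith
  have h6 : 0 ≤ (c₀ + C₁) * ε := by positivity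
  have h7 := mul_le_mul_of_nonneg_right h5 h6
  push_cast
  nlinarith [h7]

/-- T-STAR -/
theorem exists_big_cross (C₁ c₀ : ℝ) (hC₁ : 0 ≤ C₁) (hc₀ : 0 < c₀) (N₀ : ℕ) :
    ∃ (n₁ : ℕ) (c₁ : ℝ), 0 < c₁ ∧
    ∀ {V : Type} (T : Finset V) (ε : V → ℝ) (g : V → ℕ → ℕ → ℝ) (s : Finset ℕ),
    (∀ v ∈ T, 0 ≤ ε v) → (∀ v i j, g v i j = g v j i) →
    (∀ i ∈ s, ∀ j ∈ s, i ≠ j → ∑ v ∈ T, g v i j = 0) →
    (∀ v ∈ T, ∀ i ∈ s, ∀ j ∈ s, i ≠ j → -(C₁ * ε v) ≤ g v i j) →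
    (∀ v ∈ T, ∀ s' ⊆ s, N₀ < s'.card → ∃ i ∈ s', ∃ j ∈ s', i ≠ j ∧ c₀ * ε v ≤ g v i j) →
    n₁ ≤ s.card →
    ∃ i ∈ s, ∃ j ∈ s, ∃ l ∈ s, ∃ m ∈ s, i ≠ j ∧ i ≠ l ∧ i ≠ m ∧ j ≠ l ∧ j ≠ m ∧ l ≠ m ∧
      c₁ * ∑ v ∈ T, ε v ≤ ∑ v ∈ T, |g v i l + g v j m - g v i m - g v j l| := by
  classical
  -- choice of `M`
  set D : ℝ := 2 * N₀ + N₀ ^ 2 + N₀ with hD
  obtain ⟨M, hM⟩ := exists_nat_ge ((C₁ * D + 1) / c₀ + 1)
  have hM1 : (1 : ℝ) ≤ M := by
    have : 0 ≤ (C₁ * D + 1) / c₀ := by positivity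
    linarith
  have hM2 : C₁ * D + 1 ≤ c₀ * M := by
    have : (C₁ * D + 1) / c₀ ≤ M := by linarith
    rw [div_le_iff₀ hc₀] at this
    linarith
  have hcoef : 1 ≤ (c₀ + C₁) * ((M + 1) * M) - (N₀ + 1 + M) * (N₀ + M) * C₁ := by
    have e : (c₀ + C₁) * (((M : ℝ) + 1) * M) - (N₀ + 1 + M) * (N₀ + M) * C₁ =
        c₀ * (M * (M + 1)) - C₁ * (2 * N₀ * M + N₀ ^ 2 + N₀) := by ring
    rw [e]
    have h1 : C₁ * (2 * N₀ * M + N₀ ^ 2 + N₀) ≤ C₁ * (D * M) := by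
      apply mul_le_mul_of_nonneg_left _ hC₁
      have : (0 : ℝ) ≤ N₀ := Nat.cast_nonneg _
      rw [hD]
      nlinarith [mul_nonneg (sq_nonneg (N₀ : ℝ)) (sub_nonneg.2 hM1),
        mul_nonneg this (sub_nonneg.2 hM1)]
    have h2 : (C₁ * D + 1) * M ≤ c₀ * M * M := mul_le_mul_of_nonneg_right hM2 (by linarith)
    nlinarith [mul_pos hc₀ (lt_of_lt_of_le one_pos hM1)]
  set n : ℕ := N₀ + 1 + M with hn
  have hn2 : 2 ≤ n := by
    have : 1 ≤ M := by exact_mod_cast hM1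
    omega
  have hnR : (0 : ℝ) < n := by positivity
  refine ⟨n + 2, 1 / (2 * n ^ 2 * (n + 2) ^ 4), by positivity, ?_⟩
  intro V T ε g s hε hsym hsum hlow hst hcard
  obtain ⟨t, hts, htc⟩ := Finset.exists_subset_card_eq hcard
  obtain ⟨p, q, hp, hq, hpq⟩ := Finset.one_lt_card_iff.1 (show 1 < t.card by omega)
  set s' := (t.erase p).erase q with hs'
  have hs'c : s'.card = n := by
    rw [hs', Finset.card_erase_of_mem (Finset.mem_erase.2 ⟨hpq.symm, hq⟩),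
      Finset.card_erase_of_mem hp, htc]
    omega
  have hs't : s' ⊆ t := (Finset.erase_subset _ _).trans (Finset.erase_subset _ _)
  by_contra hcon
  push Not at hcon
  set h := ∑ v ∈ T, ε v with hh
  set c₁ : ℝ := 1 / (2 * n ^ 2 * (n + 2) ^ 4) with hc₁
  -- the quadruples
  set Qd := (((t ×ˢ t) ×ˢ (t ×ˢ t)).filter fun x : (ℕ × ℕ) × (ℕ × ℕ) =>
    x.1.1 ≠ x.1.2 ∧ x.1.1 ≠ x.2.1 ∧ x.1.1 ≠ x.2.2 ∧ x.1.2 ≠ x.2.1 ∧ x.1.2 ≠ x.2.2 ∧
      x.2.1 ≠ x.2.2) with hQd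
  set chi : V → (ℕ × ℕ) × (ℕ × ℕ) → ℝ := fun v x =>
    |g v x.1.1 x.2.1 + g v x.1.2 x.2.2 - g v x.1.1 x.2.2 - g v x.1.2 x.2.1| with hchi
  set err : V → ℝ := fun v => ∑ x ∈ Qd, chi v x with herr
  have herr0 : ∀ v, 0 ≤ err v := fun v => Finset.sum_nonneg fun x _ => abs_nonneg _
  have hle : ∀ v, ∀ x ∈ Qd, chi v x ≤ err v := fun v x hx =>
    Finset.single_le_sum (f := fun x => chi v x) (fun y _ => abs_nonneg _) hx
  have hq1 : ∀ x ∈ Qd, ∑ v ∈ T, chi v x < c₁ * h := by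
    intro x hx
    rw [hQd, Finset.mem_filter, Finset.mem_product, Finset.mem_product, Finset.mem_product] at hx
    obtain ⟨⟨⟨h1, h2⟩, h3, h4⟩, h5, h6, h7, h8, h9, h10⟩ := hx
    exact hcon _ (hts h1) _ (hts h2) _ (hts h3) _ (hts h4) h5 h6 h7 h8 h9 h10
  have hmemQ : ∀ i ∈ s', ∀ j ∈ s', i ≠ j → (((i, q), (j, p)) : (ℕ × ℕ) × (ℕ × ℕ)) ∈ Qd := by
    intro i hi j hj hij
    have hi' := hi
    have hj' := hj
    rw [hs', Finset.mem_erase, Finset.mem_erase] at hi' hj'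
    rw [hQd, Finset.mem_filter, Finset.mem_product, Finset.mem_product, Finset.mem_product]
    exact ⟨⟨⟨hs't hi, hq⟩, hs't hj, hp⟩, hi'.1, hij, hi'.2.1, Ne.symm hj'.1, Ne.symm hpq,
      hj'.2.1⟩
  obtain ⟨i₀, j₀, hi₀, hj₀, hij₀⟩ := Finset.one_lt_card_iff.1 (show 1 < s'.card by omega)
  have hhpos : 0 < h := by
    have h1 := hq1 _ (hmemQ i₀ hi₀ j₀ hj₀ hij₀)
    have h2 : 0 ≤ ∑ v ∈ T, chi v ((i₀, q), (j₀, p)) :=
      Finset.sum_nonneg fun v _ => abs_nonneg _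
    have h3 : 0 < c₁ := by positivity
    by_contra h4
    have : c₁ * h ≤ 0 := mul_nonpos_of_nonneg_of_nonpos h3.le (not_lt.1 h4)
    linarith
  -- local estimates
  have hloc : ∀ v ∈ T, ε v - 2 * (n * (n - 1)) * err v ≤ ∑ i ∈ s', ∑ j ∈ s'.erase i, g v i j := by
    intro v hv
    set a : ℕ → ℝ := fun i => (g v i p + g v i q - g v p q) / 2 with ha
    have h1 : ∀ i ∈ s', ∀ j ∈ s', i ≠ j →
        a i + a j - err v ≤ g v i j ∧ g v i j ≤ a i + a j + err v := by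
      intro i hi j hj hij
      have h2 := (hle v _ (hmemQ i hi j hj hij))
      have h3 := (hle v _ (hmemQ j hj i hi (Ne.symm hij)))
      simp only [hchi] at h2 h3
      rw [abs_le] at h2 h3
      have e1 := hsym v q p
      have e2 := hsym v q j
      have e3 := hsym v q i
      have e4 := hsym v j i
      simp only [ha]
      constructor <;> linarith [h2.1, h2.2, h3.1, h3.2]
    have h2 := star_local (C₁ := C₁) (c₀ := c₀) (ε := ε v) (err := err v) hC₁ hc₀ (hε v hv)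
      (herr0 v) (g v) s' a h1
      (fun i hi j hj hij => hlow v hv i (hts (hs't hi)) j (hts (hs't hj)) hij) N₀ M
      (fun u hu hc => hst v hv u (hu.trans (hs't.trans hts)) hc) (by rw [hs'c])
    refine le_trans ?_ h2
    have h3 := mul_le_mul_of_nonneg_right hcoef (hε v hv)
    have h4 : ((n : ℝ)) = N₀ + 1 + M := by rw [hn]; push_cast; ring
    rw [h4]
    have e5 : ((N₀ : ℝ) + 1 + M) * (N₀ + 1 + M - 1) = (N₀ + 1 + M) * (N₀ + M) := by ring
    rw [e5]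
    linarith
  have hzero : ∑ v ∈ T, ∑ i ∈ s', ∑ j ∈ s'.erase i, g v i j = 0 := by
    rw [Finset.sum_comm]
    apply Finset.sum_eq_zero
    intro i hi
    rw [Finset.sum_comm]
    apply Finset.sum_eq_zero
    intro j hj
    rw [Finset.mem_erase] at hj
    exact hsum i (hts (hs't hi)) j (hts (hs't hj.2)) (Ne.symm hj.1)
  have h5 : h - 2 * (n * (n - 1)) * ∑ v ∈ T, err v ≤ 0 := by
    rw [← hzero, hh, Finset.mul_sum, ← Finset.sum_sub_distrib]
    exact Finset.sum_le_sum hloc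
  have h6 : ∑ v ∈ T, err v ≤ (n + 2) ^ 4 * (c₁ * h) := by
    rw [herr, Finset.sum_comm]
    have h7 : ∑ x ∈ Qd, ∑ v ∈ T, chi v x ≤ ∑ x ∈ Qd, c₁ * h :=
      Finset.sum_le_sum fun x hx => (hq1 x hx).le
    refine h7.trans ?_
    rw [Finset.sum_const, nsmul_eq_mul]
    apply mul_le_mul_of_nonneg_right _ (by positivity)
    have h8 : Qd.card ≤ (n + 2) ^ 4 := by
      refine (Finset.card_filter_le _ _).trans ?_
      rw [Finset.card_product, Finset.card_product, htc]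
      apply le_of_eq
      ring
    exact_mod_cast h8
  have h9 : ((n : ℝ) + 2) ^ 4 * (c₁ * h) = h / (2 * n ^ 2) := by
    rw [hc₁]
    field_simp
  rw [h9] at h6
  have h10 : 2 * ((n : ℝ) * (n - 1)) * ∑ v ∈ T, err v ≤ 2 * (n * (n - 1)) * (h / (2 * n ^ 2)) := by
    apply mul_le_mul_of_nonneg_left h6
    have : (2 : ℝ) ≤ n := by exact_mod_cast hn2
    have : (0 : ℝ) ≤ n - 1 := by linarith
    positivity
  have h11 : 2 * ((n : ℝ) * (n - 1)) * (h / (2 * n ^ 2)) = h * ((n - 1) / n) := by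
    field_simp
  rw [h11] at h10
  have h12 : h * (((n : ℝ) - 1) / n) < h * 1 := by
    apply mul_lt_mul_of_pos_left _ hhpos
    rw [div_lt_one hnR]
    linarith
  linarith

end Pool.Agent.Helper33.PT
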